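import Mathlib
import Pool.Agent.Results.MP_c17804_co.CriticalJoins

set_option autoImplicit false

/-!
# 10-critical graphs without `K_9` with few edges

A chain of Hajos joins: both ends are the join of two pentagons and a `K_4` (14 vertices, 81 edges,
10-critical, clique number 8), and there are `m` copies of `K_10` between them, each of which loses
two disjoint edges in the two joins it takes part in, so that no `K_9` survives.
-/

open SimpleGraph Finset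

namespace Pool.Agent.Results.MP_e338b6_co.HajosChain

open Pool.Agent.Results.MP_c17804_co.CriticalJoins

/-! ### Cliques in a Hajos join -/

section join
variable {V1 V2 M : Type} {T1 : SimpleGraph V1} {T2 : SimpleGraph V2}
  {x1 y1 : V1} {x2 y2 : V2} {f1 : V1 → M} {f2 : V2 → M}

lemma adj11 (g : Glue x1 x2 f1 f2) (h1 : T1.Adj x1 y1) (h2 : T2.Adj x2 y2) {p q : V1}
    (h : (joinG T1 T2 x1 y1 x2 y2 f1 f2 g h1).Adj (f1 p) (f1 q)) :
    (T1.deleteEdges {s(x1, y1)}).Adj p q := by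
  rcases h with ⟨a, b, hab, hs, ha, hb⟩ | ⟨a, b, hab, hs, ha, hb⟩ | ⟨ha, hb⟩ | ⟨ha, hb⟩
  · have e1 := g.inj1 ha
    have e2 := g.inj1 hb
    subst e1 e2
    exact (deleteEdges_adj).2 ⟨hab, by simpa using hs⟩
  · have e1 := (g.sep _ _ ha.symm).2
    have e2 := (g.sep _ _ hb.symm).2
    rw [e1, e2] at hab
    exact absurd rfl hab.ne
  · exact absurd (g.sep _ _ hb).2 h2.ne'
  · exact absurd (g.sep _ _ ha).2 h2.ne'

lemma adj22 (g : Glue x1 x2 f1 f2) (h1 : T1.Adj x1 y1) {p q : V2}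
    (h : (joinG T1 T2 x1 y1 x2 y2 f1 f2 g h1).Adj (f2 p) (f2 q)) :
    (T2.deleteEdges {s(x2, y2)}).Adj p q := by
  rcases h with ⟨a, b, hab, hs, ha, hb⟩ | ⟨a, b, hab, hs, ha, hb⟩ | ⟨ha, hb⟩ | ⟨ha, hb⟩
  · have e1 := (g.sep _ _ ha).1
    have e2 := (g.sep _ _ hb).1
    rw [e1, e2] at hab
    exact absurd rfl hab.ne
  · have e1 := g.inj2 ha
    have e2 := g.inj2 hb
    subst e1 e2
    exact (deleteEdges_adj).2 ⟨hab, by simpa using hs⟩
  · exact absurd (g.sep _ _ ha.symm).1 h1.ne'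
  · exact absurd (g.sep _ _ hb.symm).1 h1.ne'

lemma adj12 (g : Glue x1 x2 f1 f2) (h1 : T1.Adj x1 y1) {p : V1} {q : V2} (hp : p ≠ x1)
    (hq : q ≠ x2) (h : (joinG T1 T2 x1 y1 x2 y2 f1 f2 g h1).Adj (f1 p) (f2 q)) :
    p = y1 ∧ q = y2 := by
  rcases h with ⟨a, b, hab, hs, ha, hb⟩ | ⟨a, b, hab, hs, ha, hb⟩ | ⟨ha, hb⟩ | ⟨ha, hb⟩
  · exact absurd (g.sep _ _ hb).2 hq
  · exact absurd (g.sep _ _ ha.symm).1 hp
  · exact ⟨g.inj1 ha, g.inj2 hb⟩
  · exact absurd (g.sep _ _ ha).1 hp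

/-- a clique with at least three vertices lies in one of the two sides -/
lemma clique_side (g : Glue x1 x2 f1 f2) (h1 : T1.Adj x1 y1) (h2 : T2.Adj x2 y2)
    {s : Finset M} (hs : (joinG T1 T2 x1 y1 x2 y2 f1 f2 g h1).IsClique (s : Set M))
    (hc : 3 ≤ s.card) : (∀ z ∈ s, ∃ p, f1 p = z) ∨ (∀ z ∈ s, ∃ q, f2 q = z) := by
  classical
  by_contra hcon
  push Not at hcon
  obtain ⟨⟨a, ha, ha'⟩, b, hb, hb'⟩ := hcon
  obtain ⟨q, rfl⟩ : ∃ q, f2 q = a := (g.cover a).resolve_left (fun ⟨p, hp⟩ => ha' p hp)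
  obtain ⟨p, rfl⟩ : ∃ p, f1 p = b := (g.cover b).resolve_right (fun ⟨p, hp⟩ => hb' p hp)
  have hq : q ≠ x2 := fun h => ha' x1 (by rw [h, g.glue])
  have hp : p ≠ x1 := fun h => hb' x2 (by rw [h, g.glue])
  have hne : f1 p ≠ f2 q := fun h => hp (g.sep _ _ h).1
  obtain ⟨rfl, rfl⟩ := adj12 g h1 hp hq (hs hb ha hne)
  obtain ⟨c, hcs, hca, hcb⟩ : ∃ c ∈ s, c ≠ f1 p ∧ c ≠ f2 q := by
    by_contra hcon
    push Not at hcon
    have hsub : s ⊆ {f1 p, f2 q} := fun c hcs => by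
      by_cases h : c = f1 p
      · simp [h]
      · simp [hcon c hcs h]
    have h3 := card_le_card hsub
    have h4 : ({f1 p, f2 q} : Finset M).card ≤ 2 := card_le_two
    omega
  rcases g.cover c with ⟨r, rfl⟩ | ⟨r, rfl⟩
  · by_cases hr : r = x1
    · subst hr
      have := adj11 g h1 h2 (hs hcs hb hca)
      exact ((deleteEdges_adj).1 this).2 (by simp)
    · exact hca (by rw [(adj12 g h1 hr hq (hs hcs ha hcb)).1])
  · by_cases hr : r = x2
    · subst hr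
      have := adj22 g h1 (hs hcs ha hcb)
      exact ((deleteEdges_adj).1 this).2 (by simp)
    · exact hcb (by rw [(adj12 g h1 hp hr (hs hb hcs hca.symm)).2])

/-- the preimage of a clique -/
lemma pull {V : Type} [Fintype V] {f : V → M} (hf : Function.Injective f) {G : SimpleGraph M}
    {H : SimpleGraph V} (hGH : ∀ p q, G.Adj (f p) (f q) → H.Adj p q) {s : Finset M}
    (hs : G.IsClique (s : Set M)) (hr : ∀ z ∈ s, ∃ p, f p = z) :
    ∃ t : Finset V, t.card = s.card ∧ H.IsClique (t : Set V) ∧ ∀ p ∈ t, f p ∈ s := by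
  classical
  refine ⟨univ.filter (fun p => f p ∈ s), ?_, ?_, fun p hp => (mem_filter.1 hp).2⟩
  · rw [← card_image_of_injective _ hf]
    congr 1
    ext z
    simp only [mem_image, mem_filter, mem_univ, true_and]
    constructor
    · rintro ⟨p, hp, rfl⟩
      exact hp
    · intro hz
      obtain ⟨p, rfl⟩ := hr z hz
      exact ⟨p, hz, rfl⟩
  · intro p hp q hq hpq
    exact hGH _ _ (hs (by simpa using hp) (by simpa using hq) (fun h => hpq (hf h)))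

/-- the number of vertices of a join -/
lemma card_glue [Fintype V1] [Fintype V2] [Fintype M] (g : Glue x1 x2 f1 f2) :
    Fintype.card M + 1 = Fintype.card V1 + Fintype.card V2 := by
  classical
  have e1 : (univ.image f1 ∪ univ.image f2 : Finset M) = univ := by
    ext z
    simp only [mem_union, mem_image, mem_univ, true_and, iff_true]
    exact g.cover z
  have e2 : (univ.image f1 ∩ univ.image f2 : Finset M) = {f1 x1} := by
    ext z
    simp only [mem_inter, mem_image, mem_univ, true_and, mem_singleton]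
    constructor
    · rintro ⟨⟨p, rfl⟩, q, hq⟩
      rw [(g.sep p q hq.symm).1]
    · rintro rfl
      exact ⟨⟨x1, rfl⟩, x2, g.glue.symm⟩
  have h := card_union_add_card_inter (univ.image f1) (univ.image f2)
  rw [e1, e2, card_univ, card_singleton, card_image_of_injective _ g.inj1,
    card_image_of_injective _ g.inj2, card_univ, card_univ] at h
  exact h

/-- the number of edges of a join -/
lemma edges_join [Fintype V1] [Fintype V2] (g : Glue x1 x2 f1 f2) (h1 : T1.Adj x1 y1)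
    (h2 : T2.Adj x2 y2) :
    (joinG T1 T2 x1 y1 x2 y2 f1 f2 g h1).edgeSet.ncard + 1 ≤
      T1.edgeSet.ncard + T2.edgeSet.ncard := by
  classical
  have hsub : (joinG T1 T2 x1 y1 x2 y2 f1 f2 g h1).edgeSet ⊆
      (Sym2.map f1 '' (T1.edgeSet \ {s(x1, y1)}) ∪ Sym2.map f2 '' (T2.edgeSet \ {s(x2, y2)})) ∪
        {s(f1 y1, f2 y2)} := by
    intro e he
    induction e using Sym2.ind with
    | _ z w =>
      rcases he with ⟨a, b, hab, hs, rfl, rfl⟩ | ⟨a, b, hab, hs, rfl, rfl⟩ | ⟨rfl, rfl⟩ | ⟨rfl, rfl⟩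
      · exact Or.inl (Or.inl ⟨s(a, b), ⟨hab, hs⟩, by simp⟩)
      · exact Or.inl (Or.inr ⟨s(a, b), ⟨hab, hs⟩, by simp⟩)
      · exact Or.inr rfl
      · exact Or.inr Sym2.eq_swap
  have hfin1 : T1.edgeSet.Finite := Set.toFinite _
  have hfin2 : T2.edgeSet.Finite := Set.toFinite _
  have c1 : (T1.edgeSet \ {s(x1, y1)}).ncard + 1 = T1.edgeSet.ncard :=
    Set.ncard_sdiff_singleton_add_one h1 hfin1
  have c2 : (T2.edgeSet \ {s(x2, y2)}).ncard + 1 = T2.edgeSet.ncard :=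
    Set.ncard_sdiff_singleton_add_one h2 hfin2
  have i1 := Set.ncard_image_le (f := Sym2.map f1) (s := T1.edgeSet \ {s(x1, y1)}) (Set.toFinite _)
  have i2 := Set.ncard_image_le (f := Sym2.map f2) (s := T2.edgeSet \ {s(x2, y2)}) (Set.toFinite _)
  have u1 := Set.ncard_union_le (Sym2.map f1 '' (T1.edgeSet \ {s(x1, y1)}))
    (Sym2.map f2 '' (T2.edgeSet \ {s(x2, y2)}))
  have u2 := Set.ncard_union_le (Sym2.map f1 '' (T1.edgeSet \ {s(x1, y1)}) ∪
    Sym2.map f2 '' (T2.edgeSet \ {s(x2, y2)})) {s(f1 y1, f2 y2)}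
  have hle := Set.ncard_le_ncard hsub (((Set.toFinite _).union (Set.toFinite _)).union
    (Set.toFinite _))
  rw [Set.ncard_singleton] at u2
  omega

end join

/-! ### The end piece -/

/-- adjacency in the join of two pentagons and a complete graph on four vertices -/
def adjB (i j : Fin 14) : Bool :=
  i != j && !(((decide (i.1 < 5) && decide (j.1 < 5)) ||
      (decide (5 ≤ i.1) && decide (i.1 < 10) && decide (5 ≤ j.1) && decide (j.1 < 10))) &&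
    (decide ((i.1 + 10 - j.1) % 5 = 2) || decide ((i.1 + 10 - j.1) % 5 = 3)))

lemma adjB_symm : ∀ i j, adjB i j = true → adjB j i = true := by decide +kernel

lemma adjB_irrefl : ∀ i, ¬ adjB i i = true := by decide +kernel

/-- the join of two pentagons and a complete graph on four vertices -/
def B : SimpleGraph (Fin 14) where
  Adj i j := adjB i j = true
  symm := ⟨fun i j h => adjB_symm i j h⟩
  loopless := ⟨fun i h => adjB_irrefl i h⟩

/-- a colouring with nine colours of the graph without an edge, for every edge -/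
def tab : List ((ℕ × ℕ) × List ℕ) :=
  [((0, 1), [4, 4, 5, 4, 5, 6, 7, 6, 7, 8, 0, 1, 2, 3]),
    ((0, 4), [4, 5, 4, 5, 4, 6, 7, 6, 7, 8, 0, 1, 2, 3]),
    ((0, 5), [4, 5, 6, 5, 6, 4, 7, 8, 7, 8, 0, 1, 2, 3]),
    ((0, 6), [4, 5, 6, 5, 6, 7, 4, 8, 7, 8, 0, 1, 2, 3]),
    ((0, 7), [4, 5, 6, 5, 6, 7, 8, 4, 7, 8, 0, 1, 2, 3]),
    ((0, 8), [4, 5, 6, 5, 6, 7, 8, 7, 4, 8, 0, 1, 2, 3]),
    ((0, 9), [4, 5, 6, 5, 6, 7, 8, 7, 8, 4, 0, 1, 2, 3]),
    ((0, 10), [0, 4, 5, 4, 5, 6, 7, 6, 7, 8, 0, 1, 2, 3]),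
    ((0, 11), [1, 4, 5, 4, 5, 6, 7, 6, 7, 8, 0, 1, 2, 3]),
    ((0, 12), [2, 4, 5, 4, 5, 6, 7, 6, 7, 8, 0, 1, 2, 3]),
    ((0, 13), [3, 4, 5, 4, 5, 6, 7, 6, 7, 8, 0, 1, 2, 3]),
    ((1, 2), [4, 5, 5, 4, 5, 6, 7, 6, 7, 8, 0, 1, 2, 3]),
    ((1, 5), [4, 5, 6, 4, 6, 5, 7, 8, 7, 8, 0, 1, 2, 3]),
    ((1, 6), [4, 5, 6, 4, 6, 7, 5, 8, 7, 8, 0, 1, 2, 3]),
    ((1, 7), [4, 5, 6, 4, 6, 7, 8, 5, 7, 8, 0, 1, 2, 3]),
    ((1, 8), [4, 5, 6, 4, 6, 7, 8, 7, 5, 8, 0, 1, 2, 3]),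
    ((1, 9), [4, 5, 6, 4, 6, 7, 8, 7, 8, 5, 0, 1, 2, 3]),
    ((1, 10), [4, 0, 5, 4, 5, 6, 7, 6, 7, 8, 0, 1, 2, 3]),
    ((1, 11), [4, 1, 5, 4, 5, 6, 7, 6, 7, 8, 0, 1, 2, 3]),
    ((1, 12), [4, 2, 5, 4, 5, 6, 7, 6, 7, 8, 0, 1, 2, 3]),
    ((1, 13), [4, 3, 5, 4, 5, 6, 7, 6, 7, 8, 0, 1, 2, 3]),
    ((2, 3), [4, 5, 4, 4, 5, 6, 7, 6, 7, 8, 0, 1, 2, 3]),
    ((2, 5), [4, 5, 6, 4, 5, 6, 7, 8, 7, 8, 0, 1, 2, 3]),
    ((2, 6), [4, 5, 6, 4, 5, 7, 6, 8, 7, 8, 0, 1, 2, 3]),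
    ((2, 7), [4, 5, 6, 4, 5, 7, 8, 6, 7, 8, 0, 1, 2, 3]),
    ((2, 8), [4, 5, 6, 4, 5, 7, 8, 7, 6, 8, 0, 1, 2, 3]),
    ((2, 9), [4, 5, 6, 4, 5, 7, 8, 7, 8, 6, 0, 1, 2, 3]),
    ((2, 10), [4, 5, 0, 4, 5, 6, 7, 6, 7, 8, 0, 1, 2, 3]),
    ((2, 11), [4, 5, 1, 4, 5, 6, 7, 6, 7, 8, 0, 1, 2, 3]),
    ((2, 12), [4, 5, 2, 4, 5, 6, 7, 6, 7, 8, 0, 1, 2, 3]),
    ((2, 13), [4, 5, 3, 4, 5, 6, 7, 6, 7, 8, 0, 1, 2, 3]),
    ((3, 4), [4, 5, 4, 5, 5, 6, 7, 6, 7, 8, 0, 1, 2, 3]),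
    ((3, 5), [4, 5, 4, 6, 5, 6, 7, 8, 7, 8, 0, 1, 2, 3]),
    ((3, 6), [4, 5, 4, 6, 5, 7, 6, 8, 7, 8, 0, 1, 2, 3]),
    ((3, 7), [4, 5, 4, 6, 5, 7, 8, 6, 7, 8, 0, 1, 2, 3]),
    ((3, 8), [4, 5, 4, 6, 5, 7, 8, 7, 6, 8, 0, 1, 2, 3]),
    ((3, 9), [4, 5, 4, 6, 5, 7, 8, 7, 8, 6, 0, 1, 2, 3]),
    ((3, 10), [4, 5, 4, 0, 5, 6, 7, 6, 7, 8, 0, 1, 2, 3]),
    ((3, 11), [4, 5, 4, 1, 5, 6, 7, 6, 7, 8, 0, 1, 2, 3]),
    ((3, 12), [4, 5, 4, 2, 5, 6, 7, 6, 7, 8, 0, 1, 2, 3]),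
    ((3, 13), [4, 5, 4, 3, 5, 6, 7, 6, 7, 8, 0, 1, 2, 3]),
    ((4, 5), [4, 5, 4, 5, 6, 6, 7, 8, 7, 8, 0, 1, 2, 3]),
    ((4, 6), [4, 5, 4, 5, 6, 7, 6, 8, 7, 8, 0, 1, 2, 3]),
    ((4, 7), [4, 5, 4, 5, 6, 7, 8, 6, 7, 8, 0, 1, 2, 3]),
    ((4, 8), [4, 5, 4, 5, 6, 7, 8, 7, 6, 8, 0, 1, 2, 3]),
    ((4, 9), [4, 5, 4, 5, 6, 7, 8, 7, 8, 6, 0, 1, 2, 3]),
    ((4, 10), [4, 5, 4, 5, 0, 6, 7, 6, 7, 8, 0, 1, 2, 3]),
    ((4, 11), [4, 5, 4, 5, 1, 6, 7, 6, 7, 8, 0, 1, 2, 3]),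
    ((4, 12), [4, 5, 4, 5, 2, 6, 7, 6, 7, 8, 0, 1, 2, 3]),
    ((4, 13), [4, 5, 4, 5, 3, 6, 7, 6, 7, 8, 0, 1, 2, 3]),
    ((5, 6), [4, 5, 4, 5, 6, 7, 7, 8, 7, 8, 0, 1, 2, 3]),
    ((5, 9), [4, 5, 4, 5, 6, 7, 8, 7, 8, 7, 0, 1, 2, 3]),
    ((5, 10), [4, 5, 4, 5, 6, 0, 7, 8, 7, 8, 0, 1, 2, 3]),
    ((5, 11), [4, 5, 4, 5, 6, 1, 7, 8, 7, 8, 0, 1, 2, 3]),
    ((5, 12), [4, 5, 4, 5, 6, 2, 7, 8, 7, 8, 0, 1, 2, 3]),
    ((5, 13), [4, 5, 4, 5, 6, 3, 7, 8, 7, 8, 0, 1, 2, 3]),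
    ((6, 7), [4, 5, 4, 5, 6, 7, 8, 8, 7, 8, 0, 1, 2, 3]),
    ((6, 10), [4, 5, 4, 5, 6, 7, 0, 8, 7, 8, 0, 1, 2, 3]),
    ((6, 11), [4, 5, 4, 5, 6, 7, 1, 8, 7, 8, 0, 1, 2, 3]),
    ((6, 12), [4, 5, 4, 5, 6, 7, 2, 8, 7, 8, 0, 1, 2, 3]),
    ((6, 13), [4, 5, 4, 5, 6, 7, 3, 8, 7, 8, 0, 1, 2, 3]),
    ((7, 8), [4, 5, 4, 5, 6, 7, 8, 7, 7, 8, 0, 1, 2, 3]),
    ((7, 10), [4, 5, 4, 5, 6, 7, 8, 0, 7, 8, 0, 1, 2, 3]),
    ((7, 11), [4, 5, 4, 5, 6, 7, 8, 1, 7, 8, 0, 1, 2, 3]),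
    ((7, 12), [4, 5, 4, 5, 6, 7, 8, 2, 7, 8, 0, 1, 2, 3]),
    ((7, 13), [4, 5, 4, 5, 6, 7, 8, 3, 7, 8, 0, 1, 2, 3]),
    ((8, 9), [4, 5, 4, 5, 6, 7, 8, 7, 8, 8, 0, 1, 2, 3]),
    ((8, 10), [4, 5, 4, 5, 6, 7, 8, 7, 0, 8, 0, 1, 2, 3]),
    ((8, 11), [4, 5, 4, 5, 6, 7, 8, 7, 1, 8, 0, 1, 2, 3]),
    ((8, 12), [4, 5, 4, 5, 6, 7, 8, 7, 2, 8, 0, 1, 2, 3]),
    ((8, 13), [4, 5, 4, 5, 6, 7, 8, 7, 3, 8, 0, 1, 2, 3]),
    ((9, 10), [4, 5, 4, 5, 6, 7, 8, 7, 8, 0, 0, 1, 2, 3]),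
    ((9, 11), [4, 5, 4, 5, 6, 7, 8, 7, 8, 1, 0, 1, 2, 3]),
    ((9, 12), [4, 5, 4, 5, 6, 7, 8, 7, 8, 2, 0, 1, 2, 3]),
    ((9, 13), [4, 5, 4, 5, 6, 7, 8, 7, 8, 3, 0, 1, 2, 3]),
    ((10, 11), [3, 4, 3, 4, 5, 6, 7, 6, 7, 8, 0, 0, 1, 2]),
    ((10, 12), [3, 4, 3, 4, 5, 6, 7, 6, 7, 8, 0, 1, 0, 2]),
    ((10, 13), [3, 4, 3, 4, 5, 6, 7, 6, 7, 8, 0, 1, 2, 0]),
    ((11, 12), [3, 4, 3, 4, 5, 6, 7, 6, 7, 8, 0, 1, 1, 2]),
    ((11, 13), [3, 4, 3, 4, 5, 6, 7, 6, 7, 8, 0, 1, 2, 1]),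
    ((12, 13), [3, 4, 3, 4, 5, 6, 7, 6, 7, 8, 0, 1, 2, 2])]

/-- the check of one entry of the table -/
def okB (a b : Fin 14) (l : List ℕ) : Bool :=
  decide (∀ i : Fin 14, l.getD i.1 0 < 9) &&
  decide (∀ i j : Fin 14, adjB i j = true → (¬ (i = a ∧ j = b)) → (¬ (i = b ∧ j = a)) →
    l.getD i.1 0 ≠ l.getD j.1 0)

lemma tab_ok : ∀ a b : Fin 14, adjB a b = true →
    tab.any (fun e => (e.1 == (a.1, b.1) || e.1 == (b.1, a.1)) && okB a b e.2) = true := by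
  decide +kernel

lemma three_colours {d : Fin 5 → Fin 9} (h : ∀ i, d i ≠ d (i + 1)) :
    3 ≤ (univ.image d).card := by
  have h0 : d 0 ≠ d 1 := h 0
  have h1 : d 1 ≠ d 2 := h 1
  have h2 : d 2 ≠ d 3 := h 2
  have h3 : d 3 ≠ d 4 := h 3
  have h4 : d 4 ≠ d 0 := h 4
  have key : ∀ i, d i ≠ d 0 → d i ≠ d 1 → 3 ≤ (univ.image d).card := by
    intro i hi0 hi1
    have hsub : ({d 0, d 1, d i} : Finset (Fin 9)) ⊆ univ.image d := by
      intro x hx
      simp only [mem_insert, mem_singleton] at hx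
      rcases hx with rfl | rfl | rfl <;> exact mem_image_of_mem _ (mem_univ _)
    have hcard : ({d 0, d 1, d i} : Finset (Fin 9)).card = 3 :=
      card_eq_three.2 ⟨_, _, _, h0, hi0.symm, hi1.symm, rfl⟩
    rw [← hcard]
    exact card_le_card hsub
  by_cases e2 : d 2 = d 0
  · by_cases e3 : d 3 = d 1
    · by_cases e4 : d 4 = d 1
      · exact absurd (e3.trans e4.symm) h3
      · exact key 4 h4 e4
    · exact key 3 (fun h => h2 (e2.trans h.symm)) e3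
  · exact key 2 e2 h1.symm

lemma pent1 : ∀ i : Fin 5, adjB ⟨i.1, by omega⟩ ⟨(i + 1 : Fin 5).1, by omega⟩ = true := by
  decide +kernel

lemma pent2 : ∀ i : Fin 5, adjB ⟨i.1 + 5, by omega⟩ ⟨(i + 1 : Fin 5).1 + 5, by omega⟩ = true := by
  decide +kernel

lemma four : ∀ i j : Fin 4, i ≠ j → adjB ⟨i.1 + 10, by omega⟩ ⟨j.1 + 10, by omega⟩ = true := by
  decide +kernel

lemma cross12 : ∀ (i j : Fin 5), adjB ⟨i.1, by omega⟩ ⟨j.1 + 5, by omega⟩ = true := by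
  decide +kernel

lemma cross13 : ∀ (i : Fin 5) (j : Fin 4), adjB ⟨i.1, by omega⟩ ⟨j.1 + 10, by omega⟩ = true := by
  decide +kernel

lemma cross23 : ∀ (i : Fin 5) (j : Fin 4),
    adjB ⟨i.1 + 5, by omega⟩ ⟨j.1 + 10, by omega⟩ = true := by
  decide +kernel

lemma B_cr : Cr 9 B := by
  refine ⟨?_, ?_, ?_⟩
  · intro c
    by_contra hcon
    push Not at hcon
    have hne : ∀ i j, adjB i j = true → c i ≠ c j := fun i j h => hcon i j h
    let d1 : Fin 5 → Fin 9 := fun i => c ⟨i.1, by omega⟩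
    let d2 : Fin 5 → Fin 9 := fun i => c ⟨i.1 + 5, by omega⟩
    let d3 : Fin 4 → Fin 9 := fun i => c ⟨i.1 + 10, by omega⟩
    have c1 : 3 ≤ (univ.image d1).card := three_colours fun i => hne _ _ (pent1 i)
    have c2 : 3 ≤ (univ.image d2).card := three_colours fun i => hne _ _ (pent2 i)
    have inj3 : Function.Injective d3 := by
      intro i j hij
      by_contra h
      exact hne _ _ (four i j h) hij
    have c3 : (univ.image d3).card = 4 := by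
      rw [card_image_of_injective _ inj3]; rfl
    have hd12 : Disjoint (univ.image d1) (univ.image d2) := by
      rw [Finset.disjoint_left]
      intro x hx hx'
      obtain ⟨i, -, rfl⟩ := mem_image.1 hx
      obtain ⟨j, -, hj⟩ := mem_image.1 hx'
      exact hne _ _ (cross12 i j) hj.symm
    have hd13 : Disjoint (univ.image d1 ∪ univ.image d2) (univ.image d3) := by
      rw [Finset.disjoint_left]
      intro x hx hx'
      obtain ⟨j, -, rfl⟩ := mem_image.1 hx'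
      rcases mem_union.1 hx with hx | hx
      · obtain ⟨i, -, hi⟩ := mem_image.1 hx
        exact hne _ _ (cross13 i j) hi
      · obtain ⟨i, -, hi⟩ := mem_image.1 hx
        exact hne _ _ (cross23 i j) hi
    have h := card_le_univ ((univ.image d1 ∪ univ.image d2) ∪ univ.image d3)
    rw [card_union_of_disjoint hd13, card_union_of_disjoint hd12, Fintype.card_fin] at h
    omega
  · intro a b hab
    have h := tab_ok a b hab
    rw [List.any_eq_true] at h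
    obtain ⟨e, -, he⟩ := h
    rw [Bool.and_eq_true] at he
    have hok := he.2
    unfold okB at hok
    rw [Bool.and_eq_true, decide_eq_true_eq, decide_eq_true_eq] at hok
    refine ⟨fun i => ⟨e.2.getD i.1 0, hok.1 i⟩, fun u v huv hs heq => ?_⟩
    refine hok.2 u v huv ?_ ?_ (congrArg Fin.val heq)
    · rintro ⟨rfl, rfl⟩
      exact hs rfl
    · rintro ⟨rfl, rfl⟩
      exact hs Sym2.eq_swap
  · have : ∀ v : Fin 14, ∃ u, adjB v u = true := by decide +kernel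
    exact this

lemma B_clique {t : Finset (Fin 14)} (ht : B.IsClique (t : Set (Fin 14))) : t.card ≤ 8 := by
  have hadj : ∀ i ∈ t, ∀ j ∈ t, i ≠ j → adjB i j = true := fun i hi j hj h => ht hi hj h
  have e : t = t.filter (fun i => i.1 < 5) ∪ (t.filter (fun i => 5 ≤ i.1 ∧ i.1 < 10) ∪
      t.filter (fun i => 10 ≤ i.1)) := by
    ext i
    simp only [mem_union, mem_filter]
    constructor
    · intro h
      rcases lt_or_ge i.1 5 with h1 | h1
      · exact Or.inl ⟨h, h1⟩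
      · rcases lt_or_ge i.1 10 with h2 | h2
        · exact Or.inr (Or.inl ⟨h, h1, h2⟩)
        · exact Or.inr (Or.inr ⟨h, h2⟩)
    · rintro (h | h | h) <;> exact h.1
  have k1 : (t.filter (fun i => i.1 < 5)).card ≤ 2 := by
    by_contra hcon
    obtain ⟨a, ha, b, hb, c, hc, hab, hac, hbc⟩ := two_lt_card.1 (not_le.1 hcon)
    rw [mem_filter] at ha hb hc
    have := hadj a ha.1 b hb.1 hab
    have := hadj a ha.1 c hc.1 hac
    have := hadj b hb.1 c hc.1 hbc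
    have key : ∀ a b c : Fin 14, a.1 < 5 → b.1 < 5 → c.1 < 5 → adjB a b = true →
        adjB a c = true → adjB b c = true → False := by decide +kernel
    exact key a b c ha.2 hb.2 hc.2 ‹_› ‹_› ‹_›
  have k2 : (t.filter (fun i => 5 ≤ i.1 ∧ i.1 < 10)).card ≤ 2 := by
    by_contra hcon
    obtain ⟨a, ha, b, hb, c, hc, hab, hac, hbc⟩ := two_lt_card.1 (not_le.1 hcon)
    rw [mem_filter] at ha hb hc
    have := hadj a ha.1 b hb.1 hab
    have := hadj a ha.1 c hc.1 hac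
    have := hadj b hb.1 c hc.1 hbc
    have key : ∀ a b c : Fin 14, (5 ≤ a.1 ∧ a.1 < 10) → (5 ≤ b.1 ∧ b.1 < 10) →
        (5 ≤ c.1 ∧ c.1 < 10) → adjB a b = true →
        adjB a c = true → adjB b c = true → False := by decide +kernel
    exact key a b c ha.2 hb.2 hc.2 ‹_› ‹_› ‹_›
  have k3 : (t.filter (fun i => 10 ≤ i.1)).card ≤ 4 := by
    have : (t.filter (fun i => 10 ≤ i.1)) ⊆ univ.filter (fun i : Fin 14 => 10 ≤ i.1) :=
      filter_subset_filter _ (subset_univ _)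
    refine (card_le_card this).trans ?_
    decide +kernel
  have h1 := card_union_le (t.filter (fun i => i.1 < 5))
    (t.filter (fun i => 5 ≤ i.1 ∧ i.1 < 10) ∪ t.filter (fun i => 10 ≤ i.1))
  have h2 := card_union_le (t.filter (fun i => 5 ≤ i.1 ∧ i.1 < 10))
    (t.filter (fun i => 10 ≤ i.1))
  rw [← e] at h1
  omega

lemma B_edges : B.edgeSet.ncard ≤ 81 := by
  classical
  have h : B.edgeSet ⊆ (((univ : Finset (Fin 14 × Fin 14)).filter
      (fun p => p.1 < p.2 ∧ adjB p.1 p.2 = true)).image (fun p => s(p.1, p.2)) :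
        Finset (Sym2 (Fin 14))) := by
    intro e he
    induction e using Sym2.ind with
    | _ a b =>
      have hab : adjB a b = true := he
      rw [mem_coe, mem_image]
      rcases lt_trichotomy a b with h | h | h
      · exact ⟨(a, b), by simp [h, hab], rfl⟩
      · subst h
        exact absurd hab (adjB_irrefl a)
      · exact ⟨(b, a), by simp [h, adjB_symm a b hab], Sym2.eq_swap⟩
  refine (Set.ncard_le_ncard h (Set.toFinite _)).trans ?_
  rw [Set.ncard_coe_finset]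
  refine card_image_le.trans ?_
  decide +kernel

/-! ### The chain -/

/-- a 10-critical graph with a marked edge whose deletion destroys all `K_9` -/
def Good (n e : ℕ) : Prop :=
  ∃ (G : SimpleGraph (Fin n)) (x y : Fin n), Cr 9 G ∧ G.Adj x y ∧
    (∀ t : Finset (Fin n), (G.deleteEdges {s(x, y)}).IsClique (t : Set (Fin n)) → t.card ≤ 8) ∧
    G.edgeSet.ncard ≤ e

lemma good_zero : Good 14 81 :=
  ⟨B, 10, 11, B_cr, by show adjB 10 11 = true; decide +kernel,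
    fun _ ht => B_clique (fun a ha b hb h => (deleteEdges_le _) (ht ha hb h)), B_edges⟩

/-- nine vertices of `K_10` contain one of two disjoint edges -/
lemma top_clique {t : Finset (Fin 10)}
    (h01 : ¬ ((0 : Fin 10) ∈ t ∧ (1 : Fin 10) ∈ t)) (h23 : ¬ ((2 : Fin 10) ∈ t ∧ (3 : Fin 10) ∈ t)) :
    t.card ≤ 8 := by
  have h1 : ∃ a ∈ ({0, 1} : Finset (Fin 10)), a ∉ t := by
    by_contra hcon
    push Not at hcon
    exact h01 ⟨hcon 0 (by simp), hcon 1 (by simp)⟩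
  have h2 : ∃ a ∈ ({2, 3} : Finset (Fin 10)), a ∉ t := by
    by_contra hcon
    push Not at hcon
    exact h23 ⟨hcon 2 (by simp), hcon 3 (by simp)⟩
  obtain ⟨a, ha, hat⟩ := h1
  obtain ⟨b, hb, hbt⟩ := h2
  have hab : a ≠ b := by
    rintro rfl
    have key : ∀ a : Fin 10, a ∈ ({0, 1} : Finset (Fin 10)) → a ∈ ({2, 3} : Finset (Fin 10)) →
        False := by decide
    exact key a ha hb
  have hsub : t ⊆ univ \ {a, b} := by
    intro x hx
    simp only [mem_sdiff, mem_univ, true_and, mem_insert, mem_singleton, not_or]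
    exact ⟨fun h => hat (h ▸ hx), fun h => hbt (h ▸ hx)⟩
  have := card_le_card hsub
  rw [card_sdiff_of_subset (subset_univ _), card_univ, Fintype.card_fin, card_pair hab] at this
  exact this

lemma good_succ {n e : ℕ} (h : Good n e) : Good (n + 9) (e + 44) := by
  classical
  obtain ⟨G, x, y, hG, hxy, hcl, he⟩ := h
  obtain ⟨m, f1, f2, g⟩ := exists_glue n 10 x (0 : Fin 10)
  have hm := card_glue g
  rw [Fintype.card_fin, Fintype.card_fin, Fintype.card_fin] at hm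
  have hm' : m = n + 9 := by omega
  subst hm'
  have h01 : (⊤ : SimpleGraph (Fin 10)).Adj 0 1 := by decide
  have hcr : Cr 9 (⊤ : SimpleGraph (Fin 10)) := top_cr (q := 9) (by norm_num)
  set J := joinG G (⊤ : SimpleGraph (Fin 10)) x y 0 1 f1 f2 g hxy with hJ
  have hJcr : Cr 9 J := join_cr (by norm_num) g hG hcr hxy h01
  have hadj : J.Adj (f2 2) (f2 3) :=
    Or.inr (Or.inl ⟨2, 3, by decide, by decide, rfl, rfl⟩)
  refine ⟨J, f2 2, f2 3, hJcr, hadj, ?_, ?_⟩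
  · intro t ht
    by_contra hcon
    have ht' : J.IsClique (t : Set _) := fun a ha b hb h => (deleteEdges_le _) (ht ha hb h)
    rcases clique_side g hxy h01 ht' (by omega) with h | h
    · obtain ⟨t', ht1, ht2, -⟩ := pull g.inj1 (fun p q => adj11 g hxy h01) ht' h
      have := hcl t' ht2
      omega
    · obtain ⟨t', ht1, ht2, ht3⟩ := pull g.inj2 (fun p q => adj22 g hxy) ht' h
      have := top_clique (t := t')
        (by
          rintro ⟨h0, h1⟩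
          have := ht2 (mem_coe.2 h0) (mem_coe.2 h1) (by decide)
          exact ((deleteEdges_adj).1 this).2 (by simp))
        (by
          rintro ⟨h0, h1⟩
          have := ht (mem_coe.2 (ht3 _ h0)) (mem_coe.2 (ht3 _ h1)) hadj.ne
          exact ((deleteEdges_adj).1 this).2 (by simp))
      omega
  · have h1 := edges_join g hxy h01
    rw [← hJ] at h1
    have h2 : (⊤ : SimpleGraph (Fin 10)).edgeSet.ncard ≤ 45 := by
      have : (⊤ : SimpleGraph (Fin 10)).edgeFinset.card = 45 := by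
        rw [card_edgeFinset_top_eq_card_choose_two, Fintype.card_fin]
        decide
      rw [← this, ← Set.ncard_coe_finset, coe_edgeFinset]
    omega

lemma good_chain (m : ℕ) : Good (14 + 9 * m) (81 + 44 * m) := by
  induction m with
  | zero => exact good_zero
  | succ m ih => exact good_succ ih

/-- the chain with both ends -/
lemma closed_chain (m : ℕ) : ∃ G : SimpleGraph (Fin (27 + 9 * m)),
    Cr 9 G ∧ G.CliqueFree 9 ∧ G.edgeSet.ncard ≤ 161 + 44 * m := by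
  classical
  obtain ⟨G, x, y, hG, hxy, hcl, he⟩ := good_chain m
  obtain ⟨k, f1, f2, g⟩ := exists_glue (14 + 9 * m) 14 x (10 : Fin 14)
  have hm := card_glue g
  rw [Fintype.card_fin, Fintype.card_fin, Fintype.card_fin] at hm
  have hm' : k = 27 + 9 * m := by omega
  subst hm'
  have hB : B.Adj 10 11 := by show adjB 10 11 = true; decide +kernel
  refine ⟨joinG G B x y 10 11 f1 f2 g hxy, join_cr (by norm_num) g hG B_cr hxy hB, ?_, ?_⟩
  · intro t ht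
    have hcard := ht.card_eq
    rcases clique_side g hxy hB ht.isClique (by omega) with h | h
    · obtain ⟨t', ht1, ht2, -⟩ := pull g.inj1 (fun p q => adj11 g hxy hB) ht.isClique h
      have := hcl t' ht2
      omega
    · obtain ⟨t', ht1, ht2, -⟩ := pull g.inj2 (fun p q => adj22 g hxy) ht.isClique h
      have := B_clique (t := t') (fun a ha b hb h => (deleteEdges_le _) (ht2 ha hb h))
      omega
  · have h1 := edges_join g hxy hB
    have h2 := B_edges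
    omega

/-- There is a 10-critical graph without `K_9` on `n = 360` vertices with at most `5 n - 11` edges;
more generally, for every `m` there is one on `27 + 9 m` vertices with at most `161 + 44 m` edges. -/
theorem result :
    (∃ G : SimpleGraph (Fin 360), (G.chromaticNumber = 10 ∧
      ∀ S : G.Subgraph, S ≠ ⊤ → S.coe.chromaticNumber < 10) ∧ G.CliqueFree 9 ∧
      G.edgeSet.ncard ≤ 5 * 360 - 11) ∧
    ∀ m : ℕ, ∃ G : SimpleGraph (Fin (27 + 9 * m)), (G.chromaticNumber = 10 ∧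
      ∀ S : G.Subgraph, S ≠ ⊤ → S.coe.chromaticNumber < 10) ∧ G.CliqueFree 9 ∧
      G.edgeSet.ncard ≤ 161 + 44 * m := by
  have key : ∀ m : ℕ, ∃ G : SimpleGraph (Fin (27 + 9 * m)), (G.chromaticNumber = 10 ∧
      ∀ S : G.Subgraph, S ≠ ⊤ → S.coe.chromaticNumber < 10) ∧ G.CliqueFree 9 ∧
      G.edgeSet.ncard ≤ 161 + 44 * m := by
    intro m
    obtain ⟨G, h1, h2, h3⟩ := closed_chain m
    have := critical_of_cr (q := 9) (by norm_num) h1
    exact ⟨G, by simpa [IsCritical] using this, h2, h3⟩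
  exact ⟨key 37, key⟩

end Pool.Agent.Results.MP_e338b6_co.HajosChain
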